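import Mathlib.Algebra.Polynomial.Laurent
import Mathlib.GroupTheory.PresentedGroup
import Mathlib.Data.List.Intervals
import Mathlib.RingTheory.TwoSidedIdeal.Operations
import Mathlib.RingTheory.TwoSidedIdeal.Kernel
import Mathlib.Algebra.MonoidAlgebra.Basic
import Mathlib.Algebra.Module.Equiv.Basic
import Mathlib.Tactic

/-!
# MP_2b4a1d_al : `X₃ ≠ 0` in `Z_n` for every `n ≥ 3`

The (reduced Burau) representation of `B_n` satisfies all defining relations of `Z_n`, while
`X₃` acts as a nonzero operator.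
-/

namespace Pool.Agent.Results.MP_2b4a1d_al.XThreeNeverZero

open MonoidAlgebra

/-- The braid relations on `n - 1` generators `σ_{i+1}`, `i : Fin (n-1)`. -/
def braidRels (n : ℕ) : Set (FreeGroup (Fin (n - 1))) :=
  {r | (∃ i j : Fin (n - 1), i.val + 1 = j.val ∧
      r = FreeGroup.of i * FreeGroup.of j * FreeGroup.of i *
        (FreeGroup.of j * FreeGroup.of i * FreeGroup.of j)⁻¹) ∨
    (∃ i j : Fin (n - 1), i.val + 2 ≤ j.val ∧
      r = FreeGroup.of i * FreeGroup.of j * (FreeGroup.of j * FreeGroup.of i)⁻¹)}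

/-- The braid group on `n` strands. -/
abbrev B (n : ℕ) : Type := PresentedGroup (braidRels n)

/-- The coefficient ring `ℤ[q,q⁻¹]`. -/
abbrev R : Type := LaurentPolynomial ℤ

/-- The indeterminate `q`. -/
noncomputable def q : R := LaurentPolynomial.T 1

/-- The group algebra `R B_n`. -/
abbrev RB (n : ℕ) : Type := MonoidAlgebra R (B n)

/-- The Artin generator `σ_i`, `1 ≤ i ≤ n-1` (and the neutral element for other `i`). -/
def sig (n i : ℕ) : B n :=
  if h : 1 ≤ i ∧ i ≤ n - 1 then PresentedGroup.of ⟨i - 1, by omega⟩ else 1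

/-- `σ_a σ_{a+1} ⋯ σ_b`. -/
def up (n a b : ℕ) : B n := ((List.Ico a (b + 1)).map (sig n)).prod

/-- `σ_b σ_{b-1} ⋯ σ_a`. -/
def down (n b a : ℕ) : B n := ((List.Ico a (b + 1)).reverse.map (sig n)).prod

/-- `E_j = q^j (σ_j⋯σ_1)⁻¹ - σ_1⋯σ_j`. -/
noncomputable def E (n j : ℕ) : RB n :=
  single (down n j 1)⁻¹ (q ^ j) - single (up n 1 j) 1

/-- `X_2 = q σ_1⁻¹ + 1 - q - σ_1`, `X_k = E_{k-1} X_{k-1}` for `k ≥ 3`
(and the irrelevant values `X_0 = X_1 = 0`). -/
noncomputable def X (n : ℕ) : ℕ → RB n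
  | 0 => 0
  | 1 => 0
  | 2 => single (sig n 1)⁻¹ q + single 1 (1 - q) - single (sig n 1) 1
  | (k + 3) => E n (k + 2) * X n (k + 2)

/-- `F_k = q^{k-1} (σ_k⋯σ_1)⁻¹ - σ_1⋯σ_k`. -/
noncomputable def F (n k : ℕ) : RB n :=
  single (down n k 1)⁻¹ (q ^ (k - 1)) - single (up n 1 k) 1

/-- `G_2 = q σ_2⁻¹ + 1 - q - σ_2` and `G_k = q^{k-1} (σ_k⋯σ_2)⁻¹ - σ_2⋯σ_k` for `k ≥ 3`. -/
noncomputable def G (n k : ℕ) : RB n :=
  if k = 2 then single (sig n 2)⁻¹ q + single 1 (1 - q) - single (sig n 2) 1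
  else single (down n k 2)⁻¹ (q ^ (k - 1)) - single (up n 2 k) 1

/-- The defining relators `(G_k - F_k) X_k`, `2 ≤ k ≤ n-1`. -/
def relators (n : ℕ) : Set (RB n) := {z | ∃ k, 2 ≤ k ∧ k ≤ n - 1 ∧ z = (G n k - F n k) * X n k}

/-- The ring `Z_n`: the quotient of `R B_n` by the two-sided ideal generated by the relators. -/
abbrev Z (n : ℕ) : Type := (TwoSidedIdeal.span (relators n)).ringCon.Quotient

/-- The quotient map `R B_n → Z_n`. -/
noncomputable def toZ (n : ℕ) : RB n →+* Z n := (TwoSidedIdeal.span (relators n)).ringCon.mk'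

/-! ### The representation -/

/-- underlying space -/
abbrev V : Type := ℕ → ℚ

/-- action of `σ_{i+1}` -/
def sFun (i : ℕ) (v : V) : V := fun j => if j = i + 1 then 2 * v (i + 1) - 2 * v (i + 2) + v i else v j

/-- action of `σ_{i+1}⁻¹` -/
def tFun (i : ℕ) (v : V) : V := fun j => if j = i + 1 then (v (i + 1) + 2 * v (i + 2) - v i) / 2 else v j

/-- `σ_{i+1}` as a linear automorphism -/
def s (i : ℕ) : V ≃ₗ[ℚ] V where
  toFun := sFun i
  invFun := tFun i
  map_add' := by
    intro u v; ext j; simp only [sFun, Pi.add_apply]; split_ifs <;> ring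
  map_smul' := by
    intro c v; ext j; simp only [sFun, Pi.smul_apply, smul_eq_mul, RingHom.id_apply]
    split_ifs <;> ring
  left_inv := by
    intro v; ext j
    by_cases hj : j = i + 1
    · subst hj; simp [sFun, tFun]; ring
    · simp [sFun, tFun, hj]
  right_inv := by
    intro v; ext j
    by_cases hj : j = i + 1
    · subst hj; simp [sFun, tFun]; ring
    · simp [sFun, tFun, hj]

lemma s_apply (i : ℕ) (v : V) : s i v = sFun i v := rfl
lemma s_inv_apply (i : ℕ) (v : V) : (s i)⁻¹ v = tFun i v := rfl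

lemma braid1 (i : ℕ) : s i * s (i + 1) * s i = s (i + 1) * s i * s (i + 1) := by
  ext v j
  simp only [LinearEquiv.mul_apply, s_apply]
  have e : ¬ (i = i + 1 + 1) := by omega
  have e' : ¬ (i = i + 2) := by omega
  by_cases h1 : j = i + 1
  · subst h1; simp [sFun, e]; ring_nf
  · by_cases h2 : j = i + 2
    · subst h2; simp [sFun, e, e']; ring_nf
    · simp [sFun, h1, h2]

lemma braid2 (i j : ℕ) (h : i + 2 ≤ j) : s i * s j = s j * s i := by
  ext v l
  simp only [LinearEquiv.mul_apply, s_apply]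
  have e1 : ¬ (i = j + 1) := by omega
  have e2 : ¬ (i + 1 = j + 1) := by omega
  have e3 : ¬ (i + 2 = j + 1) := by omega
  have e4 : ¬ (j = i + 1) := by omega
  have e5 : ¬ (j + 1 = i + 1) := by omega
  have e6 : ¬ (j + 2 = i + 1) := by omega
  by_cases h1 : l = i + 1
  · simp only [sFun, h1, e1, e2, e3, if_true, if_false]
  · by_cases h2 : l = j + 1
    · simp only [sFun, h2, e4, e5, e6, if_true, if_false]
    · simp only [sFun, h1, h2, if_false]

lemma rels_ok (n : ℕ) : ∀ r ∈ braidRels n,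
    FreeGroup.lift (fun i : Fin (n - 1) => s i.val) r = 1 := by
  rintro r (⟨i, j, hij, rfl⟩ | ⟨i, j, hij, rfl⟩)
  · simp only [map_mul, map_inv, FreeGroup.lift_apply_of]
    rw [mul_inv_eq_one, ← hij]
    exact braid1 _
  · simp only [map_mul, map_inv, FreeGroup.lift_apply_of]
    rw [mul_inv_eq_one]
    exact braid2 _ _ hij

/-- The representation of the braid group. -/
noncomputable def rho (n : ℕ) : B n →* (V ≃ₗ[ℚ] V) := PresentedGroup.toGroup (rels_ok n)

lemma rho_sig (n i : ℕ) (h : i + 1 ≤ n - 1) : rho n (sig n (i + 1)) = s i := by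
  have : 1 ≤ i + 1 ∧ i + 1 ≤ n - 1 := ⟨by omega, h⟩
  rw [sig, dif_pos this]
  exact PresentedGroup.toGroup.of _

/-- The standard basis vectors. -/
def d (i : ℕ) : V := Pi.single i 1

lemma s_d_far (i j : ℕ) (h : i + 3 ≤ j) : s i (d j) = d j := by
  rw [s_apply]
  ext l
  simp only [sFun, d, Pi.single_apply]
  split_ifs <;> first | omega | simp

lemma rho_sig_d_far (n i j : ℕ) (h : i + 2 ≤ j) : rho n (sig n i) (d j) = d j := by
  by_cases h1 : 1 ≤ i ∧ i ≤ n - 1
  · obtain ⟨i', rfl⟩ : ∃ i', i = i' + 1 := ⟨i - 1, by omega⟩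
    rw [rho_sig n i' h1.2]
    exact s_d_far _ _ (by omega)
  · rw [sig, dif_neg h1, map_one]; rfl

lemma rho_list_far (n j : ℕ) (L : List ℕ) (h : ∀ i ∈ L, i + 2 ≤ j) :
    rho n ((L.map (sig n)).prod) (d j) = d j := by
  induction L with
  | nil => simp
  | cons a L ih =>
    simp only [List.map_cons, List.prod_cons, map_mul, LinearEquiv.mul_apply]
    rw [ih (fun i hi => h i (List.mem_cons_of_mem _ hi)), rho_sig_d_far n a j (h a (by simp))]

/-- `s_{j-1} s_j` on `d_{j-1}`, etc. -/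
lemma ss_d (j : ℕ) : s j (s (j + 1) (d (j + 1))) = d (j + 2) := by
  rw [s_apply, s_apply]
  ext l
  have e : ¬ (j = j + 1 + 1) := by omega
  by_cases h1 : l = j + 1
  · subst h1; simp [sFun, d, Pi.single_apply, e]
  · by_cases h2 : l = j + 2
    · subst h2; simp [sFun, d, Pi.single_apply]
    · simp [sFun, d, Pi.single_apply, h1, h2]

lemma tt_d (j : ℕ) : (s j)⁻¹ ((s (j + 1))⁻¹ (d (j + 1))) = (-(1 / 2) : ℚ) • d (j + 2) := by
  rw [s_inv_apply, s_inv_apply]
  ext l
  have e : ¬ (j = j + 1 + 1) := by omega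
  by_cases h1 : l = j + 1
  · subst h1; simp [tFun, d, Pi.single_apply, e]; norm_num
  · by_cases h2 : l = j + 2
    · subst h2; simp [tFun, d, Pi.single_apply]; norm_num
    · simp [tFun, d, Pi.single_apply, h1, h2]

/-- For `a ≤ j+1` and `j + 2 ≤ n-1`, `σ_a⋯σ_{j+2}` sends `d_{j+1}` to `d_{j+2}`. -/
lemma up_d (n a j : ℕ) (ha : a ≤ j + 1) (hj : j + 2 ≤ n - 1) :
    rho n (up n a (j + 2)) (d (j + 1)) = d (j + 2) := by
  rw [up, List.Ico.succ_top (by omega), List.Ico.succ_top (by omega)]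
  simp only [List.map_append, List.map_cons, List.map_nil, List.prod_append, List.prod_cons,
    List.prod_nil, mul_one, map_mul, LinearEquiv.mul_apply]
  rw [rho_sig n (j + 1) (by omega), rho_sig n j (by omega), ss_d]
  apply rho_list_far
  intro i hi
  rw [List.Ico.mem] at hi
  omega

lemma down_d (n a j : ℕ) (ha : a ≤ j + 1) (hj : j + 2 ≤ n - 1) :
    rho n (down n (j + 2) a)⁻¹ (d (j + 1)) = (-(1 / 2) : ℚ) • d (j + 2) := by
  rw [down, List.Ico.succ_top (by omega), List.Ico.succ_top (by omega)]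
  simp only [List.reverse_append, List.reverse_cons, List.reverse_nil, List.nil_append,
    List.map_append, List.map_cons, List.map_nil, List.prod_append, List.prod_cons,
    List.prod_nil, mul_one, mul_inv_rev, map_mul, map_inv, LinearEquiv.mul_apply]
  rw [rho_sig n (j + 1) (by omega), rho_sig n j (by omega), tt_d, map_smul]
  congr 1
  have := rho_list_far n (j + 2) (List.Ico a (j + 1)).reverse (by
    intro i hi
    rw [List.mem_reverse, List.Ico.mem] at hi
    omega)
  conv_lhs => rw [← this]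
  rw [← LinearEquiv.mul_apply, inv_mul_cancel]
  rfl

/-- The action of coefficients. -/
noncomputable def coef : R →+* Module.End ℚ V :=
  (algebraMap ℚ (Module.End ℚ V)).comp
    (LaurentPolynomial.eval₂ (Int.castRingHom ℚ) (1 : ℚˣ))

/-- The representation of the group algebra. -/
noncomputable def Phi (n : ℕ) : RB n →+* Module.End ℚ V :=
  MonoidAlgebra.liftNCRingHom coef
    ((LinearEquiv.automorphismGroup.toLinearMapMonoidHom (R := ℚ) (M := V)).comp (rho n))
    (fun x y => by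
      rw [coef, RingHom.comp_apply]
      exact Algebra.commutes _ _)

lemma coef_q : coef q = 1 := by
  rw [coef, RingHom.comp_apply, q, LaurentPolynomial.eval₂_T]
  simp

lemma Phi_single (n : ℕ) (g : B n) (r : R) (v : V) :
    Phi n (single g r) v = coef r (rho n g v) := by
  have h : Phi n (single g r) = coef r *
      ((LinearEquiv.automorphismGroup.toLinearMapMonoidHom (R := ℚ) (M := V)).comp (rho n)) g :=
    MonoidAlgebra.liftNC_single _ _ _ _
  rw [h]
  rfl

lemma Phi_single_q (n : ℕ) (g : B n) (m : ℕ) (v : V) :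
    Phi n (single g (q ^ m)) v = rho n g v := by
  rw [Phi_single, map_pow, coef_q, one_pow]; rfl

lemma Phi_single_one (n : ℕ) (g : B n) (v : V) :
    Phi n (single g 1) v = rho n g v := by
  rw [Phi_single, map_one]; rfl

lemma Phi_E (n j : ℕ) (hj : j + 2 ≤ n - 1) :
    Phi n (E n (j + 2)) (d (j + 1)) = (-(3 / 2) : ℚ) • d (j + 2) := by
  rw [E, map_sub, LinearMap.sub_apply, Phi_single_q, Phi_single_one, up_d n 1 j (by omega) hj,
    down_d n 1 j (by omega) hj]
  module

lemma Phi_F (n j : ℕ) (hj : j + 2 ≤ n - 1) :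
    Phi n (F n (j + 2)) (d (j + 1)) = (-(3 / 2) : ℚ) • d (j + 2) := by
  rw [F, map_sub, LinearMap.sub_apply, Phi_single_q, Phi_single_one, up_d n 1 j (by omega) hj,
    down_d n 1 j (by omega) hj]
  module

lemma Phi_G (n j : ℕ) (hj : j + 2 ≤ n - 1) :
    Phi n (G n (j + 2)) (d (j + 1)) = (-(3 / 2) : ℚ) • d (j + 2) := by
  by_cases h0 : j = 0
  · subst h0
    rw [G, if_pos rfl, map_sub, map_add, LinearMap.sub_apply, LinearMap.add_apply,
      Phi_single_one, Phi_single, Phi_single, map_sub, coef_q, map_one, map_inv,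
      rho_sig n 1 (by omega), s_inv_apply, s_apply]
    ext l
    by_cases h1 : l = 1
    · subst h1; simp [sFun, tFun, d, Pi.single_apply]
    · by_cases h2 : l = 2
      · subst h2; simp [sFun, tFun, d, Pi.single_apply]; norm_num
      · simp [sFun, tFun, d, Pi.single_apply, h1, h2]
  · rw [G, if_neg (by omega), map_sub, LinearMap.sub_apply, Phi_single_q, Phi_single_one,
      up_d n 2 j (by omega) hj, down_d n 2 j (by omega) hj]
    module

lemma Phi_X2 (n : ℕ) (hn : 3 ≤ n) (v : V) :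
    Phi n (X n 2) v = (-(3 / 2) * v 1 + 3 * v 2 - (3 / 2) * v 0 : ℚ) • d 1 := by
  rw [X, map_sub, map_add, LinearMap.sub_apply, LinearMap.add_apply,
    Phi_single_one, Phi_single, Phi_single, map_sub, coef_q, map_one, map_inv,
    rho_sig n 0 (by omega), s_inv_apply, s_apply]
  ext l
  by_cases h1 : l = 1
  · subst h1; simp [sFun, tFun, d]; ring
  · simp [sFun, tFun, d, Pi.single_apply, h1]

/-- The image of `X_k` is contained in the line spanned by `d_{k-1}`. -/
lemma Phi_X (n k : ℕ) (hk : k + 2 ≤ n) (v : V) (hn : 3 ≤ n) :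
    ∃ c : ℚ, Phi n (X n (k + 2)) v = c • d (k + 1) := by
  induction k with
  | zero => exact ⟨_, Phi_X2 n hn v⟩
  | succ k ih =>
    obtain ⟨c, hc⟩ := ih (by omega)
    refine ⟨c * (-(3 / 2)), ?_⟩
    change Phi n (E n (k + 2) * X n (k + 2)) v = _
    rw [map_mul, Module.End.mul_apply, hc, map_smul, Phi_E n k (by omega), smul_smul]

lemma relators_ker (n : ℕ) : relators n ⊆ TwoSidedIdeal.ker (Phi n) := by
  rintro z ⟨k, hk2, hkn, rfl⟩
  rw [SetLike.mem_coe, TwoSidedIdeal.mem_ker]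
  obtain ⟨j, rfl⟩ : ∃ j, k = j + 2 := ⟨k - 2, by omega⟩
  ext1 v
  obtain ⟨c, hc⟩ := Phi_X n j (by omega) v (by omega)
  rw [map_mul, Module.End.mul_apply, hc, map_smul, map_sub, LinearMap.sub_apply,
    Phi_G n j (by omega), Phi_F n j (by omega), sub_self, smul_zero]
  rfl

lemma X3_ne (n : ℕ) (hn : 3 ≤ n) : toZ n (X n 3) ≠ 0 := by
  intro h
  have hmem : X n 3 ∈ TwoSidedIdeal.span (relators n) := by
    rw [TwoSidedIdeal.mem_iff]
    have h' : toZ n (X n 3) = toZ n 0 := by rw [h, map_zero]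
    exact (RingCon.eq _).1 h'
  have hk : X n 3 ∈ TwoSidedIdeal.ker (Phi n) :=
    (TwoSidedIdeal.span_le.2 (relators_ker n)) hmem
  rw [TwoSidedIdeal.mem_ker] at hk
  have h1 : Phi n (X n 3) (d 1) = 0 := by rw [hk]; rfl
  have h2 : Phi n (X n 3) (d 1) = (9 / 4 : ℚ) • d 2 := by
    change Phi n (E n (0 + 2) * X n 2) (d 1) = _
    rw [map_mul, Module.End.mul_apply, Phi_X2 n hn, map_smul, Phi_E n 0 (by omega), smul_smul]
    congr 1
    simp [d]; norm_num
  rw [h2] at h1
  have h3 := congrFun h1 2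
  simp [d] at h3

/-- **Answer to Q1 of MP_2b4a1d_al**: the set of `n ≥ 3` with `X_3 = 0` in `Z_n` is empty. -/
theorem result : {n : ℕ | 3 ≤ n ∧ toZ n (X n 3) = 0} = ∅ := by
  ext n
  simp only [Set.mem_ofPred_eq, Set.mem_empty_iff_false, iff_false, not_and]
  exact fun hn => X3_ne n hn

end Pool.Agent.Results.MP_2b4a1d_al.XThreeNeverZero
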